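import Pool.Agent.K7.H41.BL.Cls
import Pool.Agent.TH425.FF.Cun

set_option autoImplicit false

/-!
Vaught's conjecture, in perfect-set form for Borel classes of countable structures, is preserved by
two constructions: it holds for the structures whose infinite blocks (the maximal 2-connected pieces
of the Gaifman graph) are in a given class, and for the structures along a rooted forest, with a
structure in the given class on every infinite set which consists of a point and its children.
-/

namespace Pool.Agent.Results.MP_5df2c5_lc.BlockDecomposition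

/-- Relational structures on `ℕ` with relations of arities `a 0, a 1, ...`. -/
abbrev Str (a : ℕ → ℕ) : Type := (i : ℕ) → (Fin (a i) → ℕ) → Bool

/-- Structures with further unary predicates. -/
abbrev UStr (a : ℕ → ℕ) : Type := Str a × (ℕ → ℕ → Bool)

/-- Isomorphism of structures. -/
def Iso {a : ℕ → ℕ} (x y : Str a) : Prop :=
  ∃ σ : Equiv.Perm ℕ, ∀ (i : ℕ) (v : Fin (a i) → ℕ), y i (⇑σ ∘ v) = x i v

/-- Isomorphism of structures with unary predicates. -/
def UIso {a : ℕ → ℕ} (x y : UStr a) : Prop :=
  ∃ σ : Equiv.Perm ℕ, (∀ (i : ℕ) (v : Fin (a i) → ℕ), y.1 i (⇑σ ∘ v) = x.1 i v) ∧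
    ∀ i u, y.2 i (σ u) = x.2 i u

/-- The class `V` satisfies Vaught's conjecture, in perfect-set form: every isomorphism-invariant
Borel subclass `B` of `V` has countably many isomorphism types, or there is a continuous family of
pairwise non-isomorphic members of `B` indexed by the Cantor space. -/
def Vaught {a : ℕ → ℕ} (V : Str a → Prop) : Prop :=
  ∀ B : Set (Str a), MeasurableSet B → (∀ x y, Iso x y → (x ∈ B ↔ y ∈ B)) → (∀ x ∈ B, V x) →
    (∃ f : ℕ → Str a, ∀ x ∈ B, ∃ n, Iso (f n) x) ∨
    (∃ g : (ℕ → Bool) → Str a, Continuous g ∧ (∀ c, g c ∈ B) ∧ ∀ c d, Iso (g c) (g d) → c = d)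

/-- The same for the isomorphism-invariant Borel classes of expansions of members of `V` by
countably many unary predicates. -/
def UVaught {a : ℕ → ℕ} (V : Str a → Prop) : Prop :=
  ∀ B : Set (UStr a), MeasurableSet B → (∀ x y, UIso x y → (x ∈ B ↔ y ∈ B)) →
    (∀ x ∈ B, V x.1) →
    (∃ f : ℕ → UStr a, ∀ x ∈ B, ∃ n, UIso (f n) x) ∨
    (∃ g : (ℕ → Bool) → UStr a, Continuous g ∧ (∀ c, g c ∈ B) ∧
      ∀ c d, UIso (g c) (g d) → c = d)

/-- The class `V` is coanalytic, closed under isomorphism, and satisfies Vaught's conjecture, with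
and without unary predicates. -/
structure Good {a : ℕ → ℕ} (V : Str a → Prop) : Prop where
  coanalytic : MeasureTheory.AnalyticSet {x | ¬ V x}
  invariant : ∀ x y, Iso x y → V x → V y
  uvaught : UVaught V
  vaught : Vaught V

/-- The tuple `(u, v)`. -/
def pair {n : ℕ} (u v : ℕ) : Fin n → ℕ := fun j => if j.val = 0 then u else v

/-- The Gaifman graph: two different points are adjacent if they occur together in a tuple. -/
def gaifman {a : ℕ → ℕ} (x : Str a) : SimpleGraph ℕ where
  Adj u v := u ≠ v ∧ ∃ (i : ℕ) (t : Fin (a i) → ℕ), x i t = true ∧ (∃ j, t j = u) ∧ ∃ l, t l = v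
  symm := ⟨fun _ _ ⟨h1, i, t, h2, h3, h4⟩ => ⟨h1.symm, i, t, h2, h4, h3⟩⟩
  loopless := ⟨fun _ h => h.1 rfl⟩

/-- The point `z` does not separate `u` from `v`: some walk from `u` to `v` avoids `z`. -/
def Joined (G : SimpleGraph ℕ) (z u v : ℕ) : Prop := ∃ w : G.Walk u v, z ∉ w.support

/-- `B` is a block of the graph: a maximal set with at least two points such that no point separates
two others. -/
structure IsBlock (G : SimpleGraph ℕ) (B : Set ℕ) : Prop where
  two : ∃ u ∈ B, ∃ v ∈ B, u ≠ v
  joined : ∀ u ∈ B, ∀ v ∈ B, ∀ z, z ≠ u → z ≠ v → Joined G z u v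
  maximal : ∀ u, (∀ v ∈ B, ∀ z, z ≠ u → z ≠ v → Joined G z u v) → u ∈ B

open Classical in
/-- The substructure on the set enumerated by `f`, without the constant tuples. -/
noncomputable def sub {a : ℕ → ℕ} (x : Str a) (f : ℕ → ℕ) : Str a :=
  fun i v => if ∃ j l, v j ≠ v l then x i (f ∘ v) else false

/-- The substructures on the infinite blocks are in `V`. There is no condition on the finite blocks,
nor on the number of the blocks and their arrangement. -/
def InfiniteBlocksIn {a : ℕ → ℕ} (V : Str a → Prop) (x : Str a) : Prop :=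
  ∀ (B : Set ℕ) (f : ℕ → ℕ), IsBlock (gaifman x) B → Function.Injective f → Set.range f = B →
    V (sub x f)

/-- `x` is a structure along a rooted forest. The relation number `φ` is the graph of a partial
function (the parent of a point) without cycles, the other relations hold only for constant tuples
and for tuples inside a family, that is, a set which consists of a point `b` and its children; and
for every infinite family the substructure, with the relations other than the relation number `φ`, is
in `V`. -/
structure AlongForest {a : ℕ → ℕ} (φ : ℕ) (V : Str a → Prop) (x : Str a) : Prop where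
  parent : ∀ v b b', x φ (pair v b) = true → x φ (pair v b') = true → b = b'
  acyclic : ∀ v, ¬ Relation.TransGen (fun u b => x φ (pair u b) = true) v v
  inside : ∀ i, i ≠ φ → ∀ t : Fin (a i) → ℕ, x i t = true → (∃ j l, t j ≠ t l) →
    ∃ b, ∀ j, t j = b ∨ x φ (pair (t j) b) = true
  families : ∀ (b : ℕ) (f : ℕ → ℕ), Function.Injective f →
    Set.range f = {w | w = b ∨ x φ (pair w b) = true} →
    V fun i v => if i = φ then false else sub x f i v

/-- `G` contains a subdivision of the infinite complete graph `K_ℵ₀`: distinct branch vertices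
`v 0, v 1, ...` and for all `i < j` a path `P i j` in `G` from `v i` to `v j` whose only branch
vertices are its ends, such that different paths meet only in branch vertices. -/
def HasInfiniteCliqueSubdivision (G : SimpleGraph ℕ) : Prop :=
  ∃ v : ℕ → ℕ, Function.Injective v ∧ ∃ P : ∀ i j, G.Walk (v i) (v j),
    (∀ i j, i < j → (P i j).IsPath) ∧
    (∀ i j k, i < j → v k ∈ (P i j).support → k = i ∨ k = j) ∧
    (∀ i j i' j', i < j → i' < j' → (i, j) ≠ (i', j') → ∀ x, x ∈ (P i j).support →
      x ∈ (P i' j').support → ∃ k, x = v k)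

/-- `x` is a finite flip of a sparse structure: there are a graph `S` without infinite clique
subdivision, a colouring `p` of the points with finitely many colours and for every binary relation
a pattern `f i` on the colours such that `x i (u, v) = f i (p u) (p v)` for all pairs of distinct
points that are not adjacent in `S`; the relations that are not binary hold only for tuples whose
entries are pairwise equal or adjacent in `S`. -/
def FlipSparse {a : ℕ → ℕ} (x : Str a) : Prop :=
  ∃ (S : SimpleGraph ℕ) (k : ℕ) (p : ℕ → Fin k) (f : ℕ → Fin k → Fin k → Bool),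
    ¬ HasInfiniteCliqueSubdivision S ∧
    (∀ i, a i = 2 → ∀ u v, u ≠ v → ¬ S.Adj u v → x i (pair u v) = f i (p u) (p v)) ∧
    (∀ i, a i ≠ 2 → ∀ t, x i t = true → ∀ j l, t j = t l ∨ S.Adj (t j) (t l))

/-- Only binary relations are nonempty, and every substructure with three or four points has a
nontrivial module, that is, a set of at least two and not all points such that no relation
distinguishes its points from outside. -/
def Decomposable {a : ℕ → ℕ} (x : Str a) : Prop :=
  (∀ i, a i ≠ 2 → ∀ t, x i t = false) ∧
  ∀ F : Finset ℕ, F.card = 3 ∨ F.card = 4 → ∃ X ⊆ F, 1 < X.card ∧ X.card < F.card ∧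
    ∀ u ∈ X, ∀ v ∈ X, ∀ w ∈ F, w ∉ X → ∀ i, a i = 2 →
      x i (pair u w) = x i (pair v w) ∧ x i (pair w u) = x i (pair w v)

open Pool.Agent Pool.Agent.K7.H41.BL
open Pool.Agent.K7.H41.NC (Stp Ok)

theorem decomposable_eq {a : ℕ → ℕ} : (Decomposable : Str a → Prop) = H533R2.VS.DecG := by
  funext x
  refine propext ⟨fun h => ⟨h.1, fun F hF => ?_⟩, fun h => ⟨h.1, fun F hF => ?_⟩⟩
  · obtain ⟨X, hX1, hX2, hX3, hX4⟩ := h.2 F hF
    refine ⟨X, hX1, hX2, hX3, fun u hu v hv w hw hwX i => ?_⟩
    show (if a i = 2 then _ else _) = (if a i = 2 then _ else _) ∧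
      (if a i = 2 then _ else _) = (if a i = 2 then _ else _)
    by_cases hai : a i = 2
    · simp only [if_pos hai]
      exact hX4 u hu v hv w hw hwX i hai
    · simp only [if_neg hai]
      exact ⟨trivial, trivial⟩
  · obtain ⟨X, hX1, hX2, hX3, hX4⟩ := h.2 F hF
    refine ⟨X, hX1, hX2, hX3, fun u hu v hv w hw hwX i hai => ?_⟩
    have h1 : (if a i = 2 then x i (H533R2.VS.p2 u w) else false) =
        (if a i = 2 then x i (H533R2.VS.p2 v w) else false) ∧
      (if a i = 2 then x i (H533R2.VS.p2 w u) else false) =
        (if a i = 2 then x i (H533R2.VS.p2 w v) else false) := hX4 u hu v hv w hw hwX i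
    simp only [if_pos hai] at h1
    exact h1

theorem good_iff {a : ℕ → ℕ} (V : Str a → Prop) : Good V ↔ Ok V :=
  ⟨fun h => ⟨h.uvaught, h.coanalytic, h.invariant⟩,
    fun h => ⟨h.co, h.iv, h.vc, H533R2.VS.vs_plain a V h.vc⟩⟩

theorem joined_iff {a : ℕ → ℕ} (x : Str a) (z u v : ℕ) :
    Joined (gaifman x) z u v ↔ C (adj x) z u v := by
  constructor
  · rintro ⟨w, hw⟩
    induction w with
    | nil =>
      rw [SimpleGraph.Walk.support_nil, List.mem_singleton] at hw
      exact c_refl (Ne.symm hw)
    | cons h p ih =>
      rw [SimpleGraph.Walk.support_cons, List.mem_cons, not_or] at hw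
      have h1 := ih hw.2
      exact c_trans (c_edge h (Ne.symm hw.1) h1.1) h1
  · rintro ⟨h1, n, hn⟩
    have key : ∀ n u, u ≠ z → Stp (Av (adj x) z) n u v → Joined (gaifman x) z u v := by
      intro n
      induction n with
      | zero =>
        intro u h1 h2
        obtain rfl : v = u := h2
        refine ⟨SimpleGraph.Walk.nil, ?_⟩
        rw [SimpleGraph.Walk.support_nil, List.mem_singleton]
        exact Ne.symm h1
      | succ n ih =>
        rintro u h1 ⟨u', h2, h3⟩
        obtain ⟨w, hw⟩ := ih u' h2.2.2 h3
        refine ⟨SimpleGraph.Walk.cons h2.1 w, ?_⟩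
        rw [SimpleGraph.Walk.support_cons, List.mem_cons, not_or]
        exact ⟨Ne.symm h1, hw⟩
    exact key n u h1 hn

theorem block_iff {a : ℕ → ℕ} (x : Str a) (B : Set ℕ) :
    IsBlock (gaifman x) B ↔ Blk (adj x) fun w => w ∈ B := by
  constructor
  · rintro ⟨⟨u, hu, v, hv, huv⟩, h2, h3⟩
    refine ⟨⟨u, v, hu, hv, huv⟩, fun u v hu hv _ z k1 k2 =>
      (joined_iff x z u v).1 (h2 u hu v hv z k1 k2), fun u hu => h3 u fun v hv z k1 k2 => ?_⟩
    rw [joined_iff]
    by_cases huv : u = v
    · subst huv
      exact c_refl (Ne.symm k1)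
    · exact hu v hv huv z k1 k2
  · rintro ⟨⟨u, v, hu, hv, huv⟩, h2, h3⟩
    refine ⟨⟨u, hu, v, hv, huv⟩, fun u hu v hv z k1 k2 => ?_,
      fun u hu => h3 u fun v hv _ z k1 k2 => (joined_iff x z u v).1 (hu v hv z k1 k2)⟩
    rw [joined_iff]
    by_cases huv : u = v
    · subst huv
      exact c_refl (Ne.symm k1)
    · exact h2 u v hu hv huv z k1 k2

theorem blocks_eq {a : ℕ → ℕ} (V : Str a → Prop) : InfiniteBlocksIn V = Bks V := by
  funext x
  refine propext ⟨fun h B hB f hf hw => ?_, fun h B f hB hf hw => ?_⟩
  · exact h {w | B w} f ((block_iff x _).2 hB) hf (Set.ext hw)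
  · exact h _ ((block_iff x B).1 hB) f hf fun w => by
      rw [← hw]
      rfl

theorem k_iff' (Pa : ℕ → ℕ → Prop) (b w : ℕ) :
    K Pa b w ↔ Relation.ReflTransGen (fun u b => Pa b u) w b := by
  constructor
  · rintro ⟨n, hn⟩
    have key : ∀ n w, Stp (Up Pa) n w b → Relation.ReflTransGen (fun u b => Pa b u) w b := by
      intro n
      induction n with
      | zero =>
        intro w h
        obtain rfl : b = w := h
        exact Relation.ReflTransGen.refl
      | succ n ih =>
        rintro w ⟨c, h1, h2⟩
        exact Relation.ReflTransGen.head h1 (ih c h2)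
    exact key n w hn
  · intro h
    induction h using Relation.ReflTransGen.head_induction_on with
    | refl => exact k_refl b
    | head h1 _ ih => exact k_trans ih (pa_k h1)

theorem m_iff (Pa : ℕ → ℕ → Prop) (b w : ℕ) :
    M Pa b w ↔ Relation.TransGen (fun u b => Pa b u) w b := by
  rw [Relation.TransGen.head'_iff]
  exact exists_congr fun c => and_congr Iff.rfl (k_iff' Pa b c)

theorem forest_eq {a : ℕ → ℕ} (φ : ℕ) (V : Str a → Prop) : AlongForest φ V = Frs φ V := by
  funext x
  have e : ∀ v, M (Pf φ x) v v ↔ Relation.TransGen (fun u b => x φ (pair u b) = true) v v :=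
    fun v => m_iff _ v v
  refine propext ⟨fun h => ⟨fun b b' v => h.parent v b b', fun v hv => h.acyclic v ((e v).1 hv),
    h.inside, fun b f hf hw => h.families b f hf (Set.ext hw)⟩, fun h =>
    ⟨fun v b b' => h.1 b b' v, fun v hv => h.2.1 v ((e v).2 hv), h.2.2.1,
      fun b f hf hw => h.2.2.2 b f hf fun w => ?_⟩⟩
  have h1 : w ∈ Set.range f ↔ w ∈ {w | w = b ∨ x φ (pair w b) = true} := by rw [hw]
  exact h1

/-- **Theorem.** Let `V` be a coanalytic, isomorphism-invariant class of countable structures which
satisfies Vaught's conjecture, in perfect-set form for Borel classes of expansions by unary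
predicates. Then so is (1) the class of the structures all of whose infinite blocks are in `V`;
(2) the class of the structures along a rooted forest with structures in `V` on the infinite
families. (3) The finite flips of sparse structures and the completely decomposable structures form
such a class `V`. -/
theorem result (a : ℕ → ℕ) (ha : ∀ i, 0 < a i) :
    (∀ V : Str a → Prop, Good V → Good (InfiniteBlocksIn V)) ∧
    (∀ φ : ℕ, a φ = 2 → ∀ V : Str a → Prop, Good V → Good (AlongForest φ V)) ∧
    Good (fun x : Str a => FlipSparse x ∨ Decomposable x) := by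
  refine ⟨fun V hV => ?_, fun φ hφ V hV => ?_, ?_⟩
  · rw [good_iff] at hV ⊢
    rw [blocks_eq]
    exact ok_bks ha hV
  · rw [good_iff] at hV ⊢
    rw [forest_eq]
    exact ok_frs ha hφ hV
  · rw [good_iff]
    have h1 := TH425.FF.flip_all a
    have h2 : Ok (FlipSparse : Str a → Prop) := ⟨h1.1, h1.2.1, h1.2.2⟩
    have h3 : Ok (Decomposable : Str a → Prop) := by
      rw [decomposable_eq]
      exact ok_dec a
    exact Ok.or h2 h3

end Pool.Agent.Results.MP_5df2c5_lc.BlockDecomposition
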