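import Pool.Agent.K7.H41.GN.Flat

set_option autoImplicit false

/-!
The perfect-set form of the Vaught conjecture for classes of structures with named elements which
are closed under clique covers, and for the clique-guarded negation fragment of
`L_{omega_1 omega}` with countably many constants.
-/

namespace Pool.Agent.Results.MP_5df2c5_lc.NamedCliqueGuarded

open FirstOrder Set MeasureTheory Pool.Agent.H834V
open Pool.Agent.H480R2.VC (Fm Cover Adj)
open Pool.Agent.H565R2.FO2 (Interp Code toI ofI toI_ofI Iso meas_toI)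
open Pool.Agent.K7.H41.GN (Con MK Clo)

/-- Truth of a sentence in a structure on the natural numbers. -/
def Holds {L : FirstOrder.Language.{0, 0}} (S : L.Structure ℕ) (φ : Fm L) : Prop :=
  ∀ a : ℕ → ℕ, Fm.Sat (L := L) (rel S) φ a

/-- A sentence of the clique-guarded negation fragment of `L_{omega_1 omega}`. -/
def Sentence {L : FirstOrder.Language.{0, 0}} (φ : Fm L) : Prop :=
  Fm.Guarded φ ∧ Fm.fv φ = ∅

/-- Every symbol in `C` is the name of an element: it holds of exactly one element. -/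
def Named {L : FirstOrder.Language.{0, 0}} (C : Set (L.Relations 1)) (I : Interp L ℕ) : Prop :=
  ∀ R ∈ C, ∃! u : ℕ, I 1 R fun _ => u

theorem result : ∀ (L : FirstOrder.Language.{0, 0}), Countable L.Symbols → L.IsRelational →
    ∀ (C : Set (L.Relations 1)) (K : Set (Code L)), MeasurableSet K →
      (∀ c ∈ K, ∀ (c' : Code L) (π : ℕ → ℕ), Named C (toI c) → Named C (toI c') →
        Cover (L := L) (toI c') (toI c) π → c' ∈ K) →
    ∀ (T : L.Theory) (Ψ : Set (Fm L)), Ψ.Countable → (∀ ψ ∈ Ψ, Sentence ψ) →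
      (∀ σ ∈ T, ∃ φ : Fm L, Sentence φ ∧ ∀ S : L.Structure ℕ, Named C (rel S) →
        (@FirstOrder.Language.Sentence.Realize L ℕ S σ ↔ Holds S φ)) →
      (∃ g : ℕ → L.Structure ℕ, ∀ S : L.Structure ℕ, Named C (rel S) → code S ∈ K →
          @FirstOrder.Language.Theory.Model L ℕ S T → (∀ ψ ∈ Ψ, Holds S ψ) →
            ∃ n : ℕ, Nonempty (@FirstOrder.Language.Equiv L ℕ ℕ S (g n))) ∨
      (∃ f : (ℕ → Bool) → L.Structure ℕ,
          (∀ x : ℕ → Bool, Named C (rel (f x)) ∧ code (f x) ∈ K ∧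
            @FirstOrder.Language.Theory.Model L ℕ (f x) T ∧ ∀ ψ ∈ Ψ, Holds (f x) ψ) ∧
          (∀ x y : ℕ → Bool,
              Nonempty (@FirstOrder.Language.Equiv L ℕ ℕ (f x) (f y)) → x = y) ∧
          (∀ (n : ℕ) (R : L.Relations n) (a : Fin n → ℕ),
              IsClopen {x : ℕ → Bool | @FirstOrder.Language.Structure.RelMap L ℕ (f x) n R a})) := by
  intro L hL hR C K0 hK0 hcl0 T Ψ hΨ hΨs hT
  classical
  have hRc : ∀ n, Countable (L.Relations n) := countable_relations hL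
  have hsent : Countable L.Sentence := countable_sentences hL
  choose F hF using hT
  let A : Set (Fm L) := Ψ ∪ {φ | ∃ σ, ∃ hσ : σ ∈ T, F σ hσ = φ}
  have hAc : A.Countable := by
    refine hΨ.union ?_
    have : {φ | ∃ σ, ∃ hσ : σ ∈ T, F σ hσ = φ} =
        Set.range (fun σ : T => F σ.1 σ.2) := by
      ext φ
      constructor
      · rintro ⟨σ, hσ, h⟩; exact ⟨⟨σ, hσ⟩, h⟩
      · rintro ⟨σ, h⟩; exact ⟨σ.1, σ.2, h⟩
    rw [this]
    exact countable_range _
  have hAs : ∀ φ ∈ A, Sentence φ := by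
    rintro φ (h | ⟨σ, hσ, rfl⟩)
    · exact hΨs φ h
    · exact (hF σ hσ).1
  have hmod : ∀ S : L.Structure ℕ, Named C (rel S) → ((∀ φ ∈ A, Holds S φ) ↔
      (@FirstOrder.Language.Theory.Model L ℕ S T ∧ ∀ ψ ∈ Ψ, Holds S ψ)) := by
    intro S hS
    constructor
    · intro h
      refine ⟨⟨fun σ hσ => ((hF σ hσ).2 S hS).2 ?_⟩, fun ψ hψ => h ψ (Or.inl hψ)⟩
      exact h _ (Or.inr ⟨σ, hσ, rfl⟩)
    · rintro ⟨h2, h3⟩ ψ (hψ | ⟨σ, hσ, rfl⟩)
      · exact h3 ψ hψ
      · exact ((hF σ hσ).2 S hS).1 (h2.realize_of_mem σ hσ)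
  have hcd : ∀ S : L.Structure ℕ, toI (code S) = rel S := fun S => toI_ofI _
  let K1 : Set (Code L) := {c | ∀ φ ∈ A, ∀ a : ℕ → ℕ, Fm.Sat (L := L) (toI c) φ a}
  -- measurability
  have hms : ∀ (φ : Fm L) (a : ℕ → ℕ),
      Measurable (fun c : Code L => Fm.Sat (L := L) (toI c) φ a) := by
    have hadj : ∀ x y : ℕ, Measurable (fun c : Code L => Adj (L := L) (toI c) x y) := by
      intro x y
      unfold Adj
      refine Measurable.exists fun n => Measurable.exists fun R => Measurable.exists fun t => ?_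
      exact (meas_toI R t).and measurable_const
    intro φ
    induction φ with
    | eq i j => intro a; exact measurable_const
    | rel R v => intro a; exact meas_toI R _
    | all f ih => exact fun a => Measurable.forall fun k => ih k a
    | any f ih => exact fun a => Measurable.exists fun k => ih k a
    | ex i φ ih => exact fun a => Measurable.exists fun x => ih _
    | neg s φ ih =>
      intro a
      refine Measurable.and ?_ (ih a).not
      have : (fun c : Code L => Pool.Agent.H480R2.VC.Clique (L := L) (toI c) (a '' ↑s)) =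
          fun c => ∀ i j : ℕ, (i ∈ s ∧ j ∈ s ∧ a i ≠ a j) → Adj (L := L) (toI c) (a i) (a j) := by
        funext c
        apply propext
        constructor
        · rintro h i j ⟨h1, h2, h3⟩
          exact h _ ⟨i, h1, rfl⟩ _ ⟨j, h2, rfl⟩ h3
        · rintro h _ ⟨i, h1, rfl⟩ _ ⟨j, h2, rfl⟩ h3
          exact h i j ⟨h1, h2, h3⟩
      rw [this]
      exact Measurable.forall fun i => Measurable.forall fun j => measurable_const.imp (hadj _ _)
  have hK1 : MeasurableSet K1 := by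
    have h2 : K1 = ⋂ φ ∈ A, {c : Code L | Fm.Sat (L := L) (toI c) φ (fun _ => 0)} := by
      ext c
      simp only [K1, mem_ofPred_eq, mem_iInter]
      constructor
      · intro h φ hφ; exact h φ hφ _
      · intro h φ hφ a
        refine Fm.sat_congr _ φ _ a (fun i hi => ?_) (h φ hφ)
        rw [(hAs φ hφ).2] at hi
        exact hi.elim
    rw [h2]
    exact MeasurableSet.biInter hAc fun φ _ => measurableSet_setOfPred.2 (hms φ _)
  have hcl : Clo C (K0 ∩ K1) := by
    rintro c ⟨hc0, hc⟩ c' π h1 h2 hπ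
    refine ⟨hcl0 c hc0 c' π h1 h2 hπ, fun φ hφ a => ?_⟩
    obtain ⟨σ, h1, h2, _⟩ := hπ.sec ∅ (fun x hx => hx.elim)
    have h3 := (Fm.cover_sat hπ φ (hAs φ hφ).1).2 σ h1 h2 (fun _ => 0) (hc φ hφ _)
    refine Fm.sat_congr _ φ _ a (fun i hi => ?_) h3
    rw [(hAs φ hφ).2] at hi
    exact hi.elim
  have hK : ∀ S : L.Structure ℕ, Named C (rel S) → code S ∈ K0 → (∀ φ ∈ A, Holds S φ) →
      code S ∈ MK C (K0 ∩ K1) := by
    intro S h1 h2 h3
    refine ⟨?_, h2, fun φ hφ a => ?_⟩
    · rw [hcd]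
      exact h1
    · rw [hcd]
      exact h3 φ hφ a
  have hK' : ∀ S : L.Structure ℕ, code S ∈ MK C (K0 ∩ K1) →
      Named C (rel S) ∧ code S ∈ K0 ∧ (∀ φ ∈ A, Holds S φ) := by
    rintro S ⟨h1, h2, h3⟩
    rw [hcd] at h1
    refine ⟨h1, h2, fun φ hφ a => ?_⟩
    have := h3 φ hφ a
    rwa [hcd] at this
  rcases adapt hR (MK C (K0 ∩ K1))
      (Pool.Agent.K7.H41.GN.main C (hK0.inter hK1) hcl) with ⟨g, hg⟩ | ⟨f, hf1, hf2, hf3⟩
  · left
    exact ⟨g, fun S h1 h2 h3 h4 => hg S (hK S h1 h2 ((hmod S h1).2 ⟨h3, h4⟩))⟩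
  · right
    refine ⟨f, fun x => ?_, hf2, hf3⟩
    obtain ⟨h1, h2, h3⟩ := hK' _ (hf1 x)
    exact ⟨h1, h2, (hmod _ h1).1 h3⟩

end Pool.Agent.Results.MP_5df2c5_lc.NamedCliqueGuarded
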