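import Pool.Agent.K7.H41.NC.Fo

set_option autoImplicit false

/-!
Vaught's conjecture, with a perfect set of models, for linearly or circularly ordered structures
whose further relations and functions are noncrossing.
-/

namespace Pool.Agent.Results.MP_5df2c5_lc.NoncrossingStructures

open FirstOrder

/-- Vaught's conjecture, perfect-set form, for the theory `T` in the language `L` (the body of the
frozen statement): the models with universe `ℕ` fall into countably many isomorphism classes, or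
some continuous family of models, indexed by the Cantor space, consists of pairwise
non-isomorphic models. -/
def Dichotomy (L : FirstOrder.Language.{0, 0}) (T : L.Theory) : Prop :=
  (∃ g : ℕ → L.Structure ℕ, ∀ S : L.Structure ℕ,
      @FirstOrder.Language.Theory.Model L ℕ S T →
        ∃ n : ℕ, Nonempty (@FirstOrder.Language.Equiv L ℕ ℕ S (g n))) ∨
  (∃ f : (ℕ → Bool) → L.Structure ℕ,
      (∀ x : ℕ → Bool, @FirstOrder.Language.Theory.Model L ℕ (f x) T) ∧
      (∀ x y : ℕ → Bool,
          Nonempty (@FirstOrder.Language.Equiv L ℕ ℕ (f x) (f y)) → x = y) ∧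
      (∀ (n : ℕ) (R : L.Relations n) (a : Fin n → ℕ),
          IsClopen {x : ℕ → Bool | @FirstOrder.Language.Structure.RelMap L ℕ (f x) n R a}) ∧
      (∀ (n : ℕ) (F : L.Functions n) (a : Fin n → ℕ) (b : ℕ),
          IsOpen {x : ℕ → Bool | @FirstOrder.Language.Structure.funMap L ℕ (f x) n F a = b}))

/-- Relational structures on `ℕ` with relations of arities `a 0, a 1, ...`. -/
abbrev Str (a : ℕ → ℕ) : Type := (i : ℕ) → (Fin (a i) → ℕ) → Bool

/-- Structures with further unary predicates. -/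
abbrev UStr (a : ℕ → ℕ) : Type := Str a × (ℕ → ℕ → Bool)

/-- Isomorphism of structures with unary predicates. -/
def UIso {a : ℕ → ℕ} (x y : UStr a) : Prop :=
  ∃ σ : Equiv.Perm ℕ, (∀ (i : ℕ) (v : Fin (a i) → ℕ), y.1 i (⇑σ ∘ v) = x.1 i v) ∧
    ∀ i u, y.2 i (σ u) = x.2 i u

/-- Vaught's conjecture, in perfect-set form, for the expansions of members of `V` by countably many
unary predicates: every isomorphism-invariant Borel class `B` of such expansions has countably many
isomorphism types, or there is a continuous family of pairwise non-isomorphic members of `B`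
indexed by the Cantor space. -/
def UVaught {a : ℕ → ℕ} (V : Str a → Prop) : Prop :=
  ∀ B : Set (UStr a), MeasurableSet B → (∀ x y, UIso x y → (x ∈ B ↔ y ∈ B)) →
    (∀ x ∈ B, V x.1) →
    (∃ f : ℕ → UStr a, ∀ x ∈ B, ∃ n, UIso (f n) x) ∨
    (∃ g : (ℕ → Bool) → UStr a, Continuous g ∧ (∀ c, g c ∈ B) ∧
      ∀ c d, UIso (g c) (g d) → c = d)

/-- `lt` is a strict linear order, and the sets `X` with `B X` have a noncrossing cover: there are a
finite set `D` and a family `F` of sets such that every `X` is contained in `A ∪ D` for some `A` in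
`F`, the sets in `F` are locally finite (finitely many elements between any two elements), and
different sets in `F` do not cross. -/
def Linear (lt : ℕ → ℕ → Prop) (B : Set ℕ → Prop) : Prop :=
  IsStrictTotalOrder ℕ lt ∧ ∃ (D : Finset ℕ) (F : Set (Set ℕ)),
    (∀ X, B X → ∃ A ∈ F, X ⊆ A ∪ D) ∧
    (∀ A ∈ F, ∀ u ∈ A, ∀ v ∈ A, {w | w ∈ A ∧ lt u w ∧ lt w v}.Finite) ∧
    (∀ A ∈ F, ∀ A' ∈ F, A ≠ A' → ¬ ∃ u v w z, (lt u v ∧ lt v w ∧ lt w z) ∧
      (u ∈ A ∧ w ∈ A) ∧ (v ∈ A' ∧ z ∈ A'))

/-- `C` is a strict circular order, and the sets `X` with `B X` have a noncrossing cover by finite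
sets and finitely many further elements. -/
def Circular (C : ℕ → ℕ → ℕ → Prop) (B : Set ℕ → Prop) : Prop :=
  ((∀ u v w, C u v w → C v w u) ∧ (∀ u v w, C u v w → ¬ C w v u) ∧
    (∀ u v w z, C u v w → C u w z → C u v z) ∧
    (∀ u v w, u ≠ v → v ≠ w → u ≠ w → C u v w ∨ C w v u)) ∧
  ∃ (D : Finset ℕ) (F : Set (Set ℕ)),
    (∀ X, B X → ∃ A ∈ F, X ⊆ A ∪ D) ∧ (∀ A ∈ F, A.Finite) ∧
    (∀ A ∈ F, ∀ A' ∈ F, A ≠ A' → ¬ ∃ u v w z, (C u v w ∧ C w z u) ∧
      (u ∈ A ∧ w ∈ A) ∧ (v ∈ A' ∧ z ∈ A'))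

/-- `X` is the set of the entries of a tuple in a relation other than `Q`, or of the arguments and
the value of a function at some tuple. -/
def Basic {L : FirstOrder.Language.{0, 0}} (S : L.Structure ℕ) (Q : Σ n, L.Relations n)
    (X : Set ℕ) : Prop :=
  (∃ R : Σ n, L.Relations n, R ≠ Q ∧ ∃ t : Fin R.1 → ℕ,
    @FirstOrder.Language.Structure.RelMap L ℕ S R.1 R.2 t ∧ X = Set.range t) ∨
  ∃ (F : Σ n, L.Functions n) (t : Fin F.1 → ℕ),
    X = insert (@FirstOrder.Language.Structure.funMap L ℕ S F.1 F.2 t) (Set.range t)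

/-- `X` is the set of the entries of a tuple in a relation other than the relation number `ε`. -/
def Support {a : ℕ → ℕ} (ε : ℕ) (x : Str a) (X : Set ℕ) : Prop :=
  ∃ i, i ≠ ε ∧ ∃ t : Fin (a i) → ℕ, x i t = true ∧ X = Set.range t

/-- The pair `(u, v)`. -/
def pair {n : ℕ} (u v : ℕ) : Fin n → ℕ := fun j => if j.val = 0 then u else v

/-- The triple `(u, v, w)`. -/
def triple {n : ℕ} (u v w : ℕ) : Fin n → ℕ :=
  fun j => if j.val = 0 then u else if j.val = 1 then v else w

open Pool.Agent.K7.H41.NC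
open Pool.Agent.H533R2.VS

theorem lin_of {a : ℕ → ℕ} {ε : ℕ} {x : Str a} {lt : ℕ → ℕ → Prop} {B : Set ℕ → Prop}
    (hlt : ∀ u v, Lo ε x u v ↔ lt u v) (h : Linear lt B)
    (hB : ∀ τ : Tp a, τ.1 ≠ ε → x τ.1 τ.2 = true → B (Set.range τ.2)) (hε : a ε = 2) :
    KG a ε x := by
  obtain ⟨h0, D, F, h1, h2, h3⟩ := h
  have e1 : Lo ε x = lt := by
    funext u v
    exact propext (hlt u v)
  have hl : Lin ε x := by
    constructor
    · exact fun u hu => h0.irrefl u ((hlt u u).1 hu)
    · exact fun u v w k1 k2 => (hlt u w).2 (h0.trans u v w ((hlt u v).1 k1) ((hlt v w).1 k2))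
    · intro u v huv
      by_contra hc
      rw [not_or, hlt, hlt] at hc
      exact huv (h0.toTrichotomous.trichotomous u v hc.1 hc.2)
  refine hl.kg (p := D.toList) hε (hl.lf (F := F) (fun A hA A' hA' hne hc => ?_) ?_ ?_)
  · rw [e1] at hc
    obtain ⟨u, v, w, z, k1, k2 | k2⟩ := hc
    · exact h3 A hA A' hA' hne ⟨u, v, w, z, k1, k2⟩
    · exact h3 A' hA' A hA (Ne.symm hne) ⟨u, v, w, z, k1, k2⟩
  · rw [e1]
    exact h2
  · intro τ k1 k2
    obtain ⟨A, hA, k3⟩ := h1 _ (hB τ k1 k2)
    refine ⟨A, hA, fun i => ?_⟩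
    rcases k3 ⟨i, rfl⟩ with k4 | k4
    · exact Or.inl k4
    · exact Or.inr (Finset.mem_toList.2 k4)

theorem cir_of {a : ℕ → ℕ} {ε : ℕ} {x : Str a} {C : ℕ → ℕ → ℕ → Prop} {B : Set ℕ → Prop}
    (hC : ∀ u v w, Co ε x u v w ↔ C u v w) (h : Circular C B)
    (hB : ∀ τ : Tp a, τ.1 ≠ ε → x τ.1 τ.2 = true → B (Set.range τ.2)) (hε : a ε = 3) :
    KC a ε x := by
  obtain ⟨⟨c1, c2, c3, c4⟩, D, F, h1, h2, h3⟩ := h
  have e1 : Co ε x = C := by
    funext u v w
    exact propext (hC u v w)
  have hc : Cyc ε x := by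
    constructor <;> rw [e1]
    · exact c1
    · exact c2
    · exact c3
    · exact c4
  refine hc.kc (p := D.toList) hε (F := F) (fun A hA A' hA' hne hc => ?_) h2 ?_
  · rw [e1] at hc
    exact h3 A hA A' hA' hne hc
  · intro τ k1 k2
    obtain ⟨A, hA, k3⟩ := h1 _ (hB τ k1 k2)
    refine ⟨A, hA, fun i => ?_⟩
    rcases k3 ⟨i, rfl⟩ with k4 | k4
    · exact Or.inl k4
    · exact Or.inr (Finset.mem_toList.2 k4)

open Pool.Agent.W889.FO.St0 (RF LF) in
/-- **Theorem.** Vaught's conjecture, in perfect-set form, holds (1) for every first-order theory in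
a countable language with a binary relation symbol `Q` such that in each model with universe `ℕ`
the symbol `Q` is a linear order and the other relations and the functions have a noncrossing cover
by locally finite sets, up to finitely many elements; (2) for every first-order theory in a
countable language with a ternary relation symbol `Q` such that in each model `Q` is a circular
order and the other relations and the functions have a noncrossing cover by finite sets, up to
finitely many elements; (3), (4) for the Borel classes of such structures. (5) Such a cover exists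
if the graph of the pairs of elements which occur together in a tuple is noncrossing. -/
theorem result :
    (∀ L : FirstOrder.Language.{0, 0}, Countable L.Symbols → ∀ (Q : L.Relations 2) (T : L.Theory),
      (∀ S : L.Structure ℕ, @FirstOrder.Language.Theory.Model L ℕ S T →
        Linear (fun u v => @FirstOrder.Language.Structure.RelMap L ℕ S 2 Q ![u, v])
          (Basic S ⟨2, Q⟩)) → Dichotomy L T) ∧
    (∀ L : FirstOrder.Language.{0, 0}, Countable L.Symbols → ∀ (Q : L.Relations 3) (T : L.Theory),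
      (∀ S : L.Structure ℕ, @FirstOrder.Language.Theory.Model L ℕ S T →
        Circular (fun u v w => @FirstOrder.Language.Structure.RelMap L ℕ S 3 Q ![u, v, w])
          (Basic S ⟨3, Q⟩)) → Dichotomy L T) ∧
    (∀ (a : ℕ → ℕ) (ε : ℕ), a ε = 2 →
      UVaught fun x : Str a => Linear (fun u v => x ε (pair u v) = true) (Support ε x)) ∧
    (∀ (a : ℕ → ℕ) (ε : ℕ), a ε = 3 →
      UVaught fun x : Str a => Circular (fun u v w => x ε (triple u v w) = true) (Support ε x)) ∧
    (∀ (lt : ℕ → ℕ → Prop) (B : Set ℕ → Prop), IsStrictTotalOrder ℕ lt → (∀ X, B X → X.Finite) →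
      (∀ u v w z, lt u v → lt v w → lt w z → ¬ ((∃ X, B X ∧ u ∈ X ∧ w ∈ X) ∧
        ∃ X, B X ∧ v ∈ X ∧ z ∈ X)) → Linear lt B) := by
  refine ⟨fun L hL Q T hT => ?_, fun L hL Q T hT => ?_, fun a ε hε => ?_, fun a ε hε => ?_,
    fun lt B h0 h1 h2 => ?_⟩
  · refine fo_of hL T fun e he => ⟨KG _ (e ⟨2, RF.rel Q⟩), (ok_KG _ _).vc, fun x hx hW hM => ?_⟩
    have hn := Pool.Agent.R617.VT.ar_e he ⟨2, (RF.rel Q : (LF L).Relations 2)⟩
    refine lin_of (fun u v => ?_) (hT _ hM) (fun τ k1 k2 => sup_basic he hx hW (Q := ⟨2, Q⟩) k1 k2)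
      hn
    show x _ _ = true ↔ x _ _ = true
    have h1 : (p2 u v : Fin (Pool.Agent.R617.VT.ar e (e ⟨2, RF.rel Q⟩)) → ℕ) =
        fun k => ![u, v] (Fin.cast hn k) := by
      funext k
      have h2 : ∀ (m : ℕ) (hm : m = 2) (k : Fin m), (p2 u v : Fin m → ℕ) k =
          ![u, v] (Fin.cast hm k) := by
        rintro m rfl k
        fin_cases k <;> rfl
      exact h2 _ hn k
    rw [h1]
  · refine fo_of hL T fun e he => ⟨KC _ (e ⟨3, RF.rel Q⟩), (ok_KC _ _).vc, fun x hx hW hM => ?_⟩
    have hn := Pool.Agent.R617.VT.ar_e he ⟨3, (RF.rel Q : (LF L).Relations 3)⟩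
    refine cir_of (fun u v w => ?_) (hT _ hM)
      (fun τ k1 k2 => sup_basic he hx hW (Q := ⟨3, Q⟩) k1 k2) hn
    show x _ _ = true ↔ x _ _ = true
    have h1 : (Pool.Agent.W875.TS.p3 u v w :
        Fin (Pool.Agent.R617.VT.ar e (e ⟨3, RF.rel Q⟩)) → ℕ) =
        fun k => ![u, v, w] (Fin.cast hn k) := by
      funext k
      have h2 : ∀ (m : ℕ) (hm : m = 3) (k : Fin m), (Pool.Agent.W875.TS.p3 u v w : Fin m → ℕ) k =
          ![u, v, w] (Fin.cast hm k) := by
        rintro m rfl k
        fin_cases k <;> rfl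
      exact h2 _ hn k
    rw [h1]
  · intro B hB hi hV
    exact (ok_KG a ε).vc B hB hi fun x hx => lin_of (fun u v => Iff.rfl) (hV x hx)
      (fun τ k1 k2 => ⟨τ.1, k1, τ.2, k2, rfl⟩) hε
  · intro B hB hi hV
    exact (ok_KC a ε).vc B hB hi fun x hx => cir_of (fun u v w => Iff.rfl) (hV x hx)
      (fun τ k1 k2 => ⟨τ.1, k1, τ.2, k2, rfl⟩) hε
  · refine ⟨h0, ∅, {X | B X}, fun X hX => ⟨X, hX, Set.subset_union_left⟩,
      fun A hA u _ v _ => (h1 A hA).subset fun w hw => hw.1, ?_⟩
    rintro A hA A' hA' - ⟨u, v, w, z, ⟨k1, k2, k3⟩, ⟨k4, k5⟩, k6, k7⟩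
    exact h2 u v w z k1 k2 k3 ⟨⟨A, hA, k4, k5⟩, A', hA', k6, k7⟩

end Pool.Agent.Results.MP_5df2c5_lc.NoncrossingStructures
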