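import Pool.Agent.K7.H41.TV.Ord

set_option autoImplicit false

/-!
The perfect-set form of the Vaught conjecture for two-variable logic, first-order or infinitary,
over classes of structures closed under the substitution of chains for points, in particular over
structures with any number of strict partial orders, linear orders and acyclic relations.
-/

namespace Pool.Agent.Results.MP_5df2c5_lc.TwoVariableSubstitution

open FirstOrder Set Pool.Agent.H834V
open Pool.Agent.H565R2.FO2 (Interp Code toI ofI toI_ofI Iso F2 Rl Md pick)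

/-- The structure satisfies the universal closure of the two-variable formula `φ`. -/
def Holds {L : FirstOrder.Language.{0, 0}} (S : L.Structure ℕ) (φ : F2 L) : Prop :=
  ∀ x y : ℕ, Rl (rel S) φ x y

/-- The pair `(u, w)` of elements of `S'` satisfies the same atomic formulas as the pair `(a, b)` of
elements of `S`. -/
def SamePair {L : FirstOrder.Language.{0, 0}} (S' S : L.Structure ℕ) (u w a b : ℕ) : Prop :=
  ∀ (n : ℕ) (R : L.Relations n) (v : Fin n → Bool),
    @FirstOrder.Language.Structure.RelMap L ℕ S' n R (fun k => cond (v k) w u) ↔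
      @FirstOrder.Language.Structure.RelMap L ℕ S n R (fun k => cond (v k) b a)

/-- `lt` is a strict linear order on the set `F`. -/
structure LinearOn (F : Set ℕ) (lt : ℕ → ℕ → Prop) : Prop where
  irrefl : ∀ u ∈ F, ¬ lt u u
  trans : ∀ u ∈ F, ∀ v ∈ F, ∀ w ∈ F, lt u v → lt v w → lt u w
  total : ∀ u ∈ F, ∀ w ∈ F, u ≠ w → lt u w ∨ lt w u

/-- `S'` arises from `S` by omitting points and by substituting chains for points: for pairs with
different images under `π` the atomic formulas are those of the images; the elements with image `c`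
are linearly ordered such that for some `b ≠ c` every increasing pair looks like `(c, b)`. The
atomic formulas with more than two different elements are arbitrary. -/
structure Substitution {L : FirstOrder.Language.{0, 0}} (S' S : L.Structure ℕ) (π : ℕ → ℕ) :
    Prop where
  point : ∀ u, SamePair S' S u u (π u) (π u)
  across : ∀ u w, π u ≠ π w → SamePair S' S u w (π u) (π w)
  inside : ∀ c, ∃ b, b ≠ c ∧ ∃ lt : ℕ → ℕ → Prop, LinearOn {u | π u = c} lt ∧
    ∀ u w, π u = c → π w = c → lt u w → SamePair S' S u w c b

/-- The class is closed under the substitution of chains for points. -/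
def SubstitutionClosed {L : FirstOrder.Language.{0, 0}} (C : Set (L.Structure ℕ)) : Prop :=
  ∀ S ∈ C, ∀ (S' : L.Structure ℕ) (π : ℕ → ℕ), Substitution S' S π → S' ∈ C

/-- Vaught's conjecture, perfect-set form, for the structures in the class `C` which satisfy the
theory `T` and the sentences in `Ψ`. -/
def Dichotomy {L : FirstOrder.Language.{0, 0}} (C : Set (L.Structure ℕ)) (T : L.Theory)
    (Ψ : Set (F2 L)) : Prop :=
  (∃ g : ℕ → L.Structure ℕ, ∀ S : L.Structure ℕ, S ∈ C →
      @FirstOrder.Language.Theory.Model L ℕ S T → (∀ ψ ∈ Ψ, Holds S ψ) →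
        ∃ n : ℕ, Nonempty (@FirstOrder.Language.Equiv L ℕ ℕ S (g n))) ∨
  (∃ f : (ℕ → Bool) → L.Structure ℕ,
      (∀ x : ℕ → Bool, f x ∈ C ∧ @FirstOrder.Language.Theory.Model L ℕ (f x) T ∧
        ∀ ψ ∈ Ψ, Holds (f x) ψ) ∧
      (∀ x y : ℕ → Bool, Nonempty (@FirstOrder.Language.Equiv L ℕ ℕ (f x) (f y)) → x = y) ∧
      (∀ (n : ℕ) (R : L.Relations n) (a : Fin n → ℕ),
          IsClopen {x : ℕ → Bool | @FirstOrder.Language.Structure.RelMap L ℕ (f x) n R a}))

/-- The symbols in `P` are interpreted by strict partial orders, the symbols in `O` by strict linear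
orders, and the symbols in `A` by relations without directed cycles. -/
structure Ordered {L : FirstOrder.Language.{0, 0}} (P O A : Set (L.Relations 2))
    (S : L.Structure ℕ) : Prop where
  partialOrder : ∀ R ∈ P, IsStrictOrder ℕ fun x y =>
    @FirstOrder.Language.Structure.RelMap L ℕ S 2 R ![x, y]
  linearOrder : ∀ R ∈ O, IsStrictTotalOrder ℕ fun x y =>
    @FirstOrder.Language.Structure.RelMap L ℕ S 2 R ![x, y]
  acyclic : ∀ R ∈ A, ∀ x, ¬ Relation.TransGen
    (fun x y => @FirstOrder.Language.Structure.RelMap L ℕ S 2 R ![x, y]) x x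

theorem ordered_iff {L : FirstOrder.Language.{0, 0}} (P O A : Set (L.Relations 2))
    (S : L.Structure ℕ) : Ordered P O A S ↔ code S ∈ Pool.Agent.K7.H41.TV.CO P O A := by
  show _ ↔ (_ ∧ _ ∧ _)
  rw [show toI (code S) = rel S from toI_ofI _]
  constructor
  · rintro ⟨h1, h2, h3⟩
    refine ⟨fun R hR => ⟨(h1 R hR).irrefl, (h1 R hR).trans⟩,
      fun R hR => ⟨⟨(h2 R hR).irrefl, (h2 R hR).trans⟩, fun u w huw => ?_⟩, h3⟩
    by_contra hc
    rw [not_or] at hc
    exact huw ((h2 R hR).toTrichotomous.trichotomous u w hc.1 hc.2)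
  · rintro ⟨h1, h2, h3⟩
    refine ⟨fun R hR => { irrefl := (h1 R hR).1, trans := (h1 R hR).2 }, fun R hR => ?_, h3⟩
    exact { trichotomous := fun u w h4 h5 => by
              by_contra h6
              rcases (h2 R hR).2 u w h6 with h7 | h7
              · exact h4 h7
              · exact h5 h7
            irrefl := (h2 R hR).1.1
            trans := (h2 R hR).1.2 }

/-- **Theorem.** Let `L` be a countable relational language. (1) Let `C` be a Borel class of
`L`-structures on `ℕ` closed under the substitution of chains for points. Let `T` be a first-order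
theory whose axioms are on `C` equivalent to sentences of two-variable logic (finitary or
infinitary), and let `Ψ` be a countable set of sentences of infinitary two-variable logic. Then the
models of `T` and `Ψ` in `C` satisfy Vaught's conjecture. (2) The class of the structures in which
given binary symbols are strict partial orders, strict linear orders and acyclic relations,
respectively, is such a class. -/
theorem result : ∀ L : FirstOrder.Language.{0, 0}, Countable L.Symbols → L.IsRelational →
    (∀ C : Set (L.Structure ℕ), MeasurableSet (code '' C) → SubstitutionClosed C →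
      ∀ (T : L.Theory) (Ψ : Set (F2 L)), Ψ.Countable →
        (∀ σ ∈ T, ∃ φ : F2 L, ∀ S ∈ C,
          (@FirstOrder.Language.Sentence.Realize L ℕ S σ ↔ Holds S φ)) → Dichotomy C T Ψ) ∧
    (∀ P O A : Set (L.Relations 2), MeasurableSet (code '' {S | Ordered P O A S}) ∧
      SubstitutionClosed {S : L.Structure ℕ | Ordered P O A S}) := by
  intro L hL hR
  classical
  have hRc : ∀ n, Countable (L.Relations n) := countable_relations hL
  let str : Code L → L.Structure ℕ := fun c =>
    { funMap := fun {n} f => (hR n).elim f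
      RelMap := fun {n} R t => c ⟨n, R, t⟩ = true }
  have hcs : ∀ c : Code L, code (str c) = c := by
    intro c
    funext p
    rw [Bool.eq_iff_iff]
    simp only [code, ofI, decide_eq_true_eq]
    exact Iff.rfl
  have hsc : ∀ S : L.Structure ℕ, str (code S) = S := by
    intro S
    have e : (str (code S)) = S := by
      rcases S with ⟨F, R⟩
      have h1 : (str (code ⟨F, R⟩)) = ⟨fun {n} f => (hR n).elim f, fun {n} Q t =>
          code (⟨F, R⟩ : L.Structure ℕ) ⟨n, Q, t⟩ = true⟩ := rfl
      rw [h1]
      congr 1
      · funext n f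
        exact (hR n).elim f
      · funext n Q t
        simp only [code, ofI, decide_eq_true_eq]
        rfl
    exact e
  refine ⟨fun C hC hcl T Ψ hΨ hT => ?_, fun P O A => ⟨?_, fun S hS S' π h => ?_⟩⟩
  · have hsent : Countable L.Sentence := countable_sentences hL
    choose F hF using hT
    let A : Set (F2 L) :=
      insert (F2.eq false false) (Ψ ∪ {φ | ∃ σ, ∃ hσ : σ ∈ T, F σ hσ = φ})
    have hAc : A.Countable := by
      refine Set.Countable.insert _ (hΨ.union ?_)
      have : {φ | ∃ σ, ∃ hσ : σ ∈ T, F σ hσ = φ} =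
          Set.range (fun σ : T => F σ.1 σ.2) := by
        ext φ
        constructor
        · rintro ⟨σ, hσ, h⟩; exact ⟨⟨σ, hσ⟩, h⟩
        · rintro ⟨σ, h⟩; exact ⟨σ.1, σ.2, h⟩
      rw [this]
      exact countable_range _
    obtain ⟨e, he⟩ := hAc.exists_eq_range ⟨_, mem_insert _ _⟩
    have hmod : ∀ S ∈ C, (Holds S (F2.inf e) ↔
        (@FirstOrder.Language.Theory.Model L ℕ S T ∧ ∀ ψ ∈ Ψ, Holds S ψ)) := by
      intro S hS
      have h0 : Holds S (F2.inf e) ↔ ∀ φ ∈ A, Holds S φ := by
        rw [he]
        constructor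
        · rintro h _ ⟨n, rfl⟩ x y
          exact h x y n
        · intro h x y n
          exact h (e n) ⟨n, rfl⟩ x y
      rw [h0]
      constructor
      · intro h
        refine ⟨⟨fun σ hσ => ((hF σ hσ) S hS).2 ?_⟩,
          fun ψ hψ => h ψ (mem_insert_of_mem _ (Or.inl hψ))⟩
        exact h _ (mem_insert_of_mem _ (Or.inr ⟨σ, hσ, rfl⟩))
      · rintro ⟨h2, h3⟩ ψ (rfl | hψ | ⟨σ, hσ, rfl⟩)
        · intro x y; rfl
        · exact h3 ψ hψ
        · exact ((hF σ hσ) S hS).1 (h2.realize_of_mem σ hσ)
    have hmem : ∀ S : L.Structure ℕ, code S ∈ code '' C ↔ S ∈ C := by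
      intro S
      constructor
      · rintro ⟨S', hS', h⟩
        rw [← hsc S, ← h, hsc]
        exact hS'
      · intro h; exact ⟨S, h, rfl⟩
    have hK : ∀ S : L.Structure ℕ, code S ∈ Pool.Agent.K7.H41.TV.K (F2.inf e) (code '' C) ↔
        S ∈ C ∧ Holds S (F2.inf e) := by
      intro S
      show (toI (code S) ∈ Md (F2.inf e) ∧ code S ∈ code '' C) ↔ _
      rw [show toI (code S) = rel S from toI_ofI _, hmem]
      exact and_comm
    have hclosed : Pool.Agent.K7.H41.TV.Closed (code '' C) := by
      rintro _ ⟨S, hS, rfl⟩ c' π h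
      refine ⟨str c', hcl S hS _ π ⟨fun u => ?_, fun u w hne => ?_, fun c => ?_⟩, hcs c'⟩
      · have h1 := h.same u
        rw [show toI (code S) = rel S from toI_ofI _] at h1
        exact h1
      · have h1 := h.across u w hne
        rw [show toI (code S) = rel S from toI_ofI _] at h1
        exact h1
      · obtain ⟨b, hb, lt, h1, h2⟩ := h.inside c
        refine ⟨b, hb, lt, ⟨h1.irr, fun u hu v hv w hw => h1.tr u v w hu hv hw,
          fun u hu w hw => h1.tot u w hu hw⟩, fun u w hu hw hl => ?_⟩
        have h3 := h2 u w hu hw hl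
        rw [show toI (code S) = rel S from toI_ofI _] at h3
        exact h3
    rcases adapt hR _ (Pool.Agent.K7.H41.TV.main (F2.inf e) hC hclosed) with
      ⟨g, hg⟩ | ⟨f, hf1, hf2, hf3⟩
    · left
      exact ⟨g, fun S h1 h2 h3 => hg S ((hK S).2 ⟨h1, (hmod S h1).2 ⟨h2, h3⟩⟩)⟩
    · right
      refine ⟨f, fun x => ?_, hf2, hf3⟩
      obtain ⟨h1, h2⟩ := (hK (f x)).1 (hf1 x)
      exact ⟨h1, (hmod _ h1).1 h2⟩
  · have e : code '' {S | Ordered P O A S} = Pool.Agent.K7.H41.TV.CO P O A := by
      ext c
      constructor
      · rintro ⟨S, hS, rfl⟩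
        exact (ordered_iff P O A S).1 hS
      · intro hc
        refine ⟨str c, ?_, hcs c⟩
        show Ordered P O A (str c)
        rw [ordered_iff, hcs]
        exact hc
    rw [e]
    exact Pool.Agent.K7.H41.TV.meas_CO P O A
  · show Ordered P O A S'
    rw [ordered_iff]
    refine Pool.Agent.K7.H41.TV.closed_CO P O A _ ((ordered_iff P O A S).1 hS) _ π ?_
    rw [show toI (code S) = rel S from toI_ofI _, show toI (code S') = rel S' from toI_ofI _]
    refine ⟨h.point, h.across, fun c => ?_⟩
    obtain ⟨b, hb, lt, h1, h2⟩ := h.inside c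
    exact ⟨b, hb, lt, ⟨h1.irrefl, fun u v w hu hv hw => h1.trans u hu v hv w hw,
      fun u w hu hw => h1.total u hu w hw⟩, h2⟩

end Pool.Agent.Results.MP_5df2c5_lc.TwoVariableSubstitution
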